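import Pool.Agent.H32.N6.TargetsB

set_option autoImplicit false

open Polynomial NumberField IsDedekindDomain Matrix Pool.Agent.H32.QC Pool.Agent.H34.N6
  Pool.Agent.H32.N6

namespace Pool.Agent.H69.N6B

theorem norm_eval_le {F : Type} [NormedField F] [IsUltrametricDist F] (p : F[X])
    (hp : ∀ i, ‖p.coeff i‖ ≤ 1) (t : F) (ht : ‖t‖ ≤ 1) : ‖eval t p‖ ≤ 1 := by
  rw [Polynomial.eval_eq_sum_range]
  refine IsUltrametricDist.norm_sum_le_of_forall_le_of_nonneg zero_le_one fun i _ => ?_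
  rw [norm_mul, norm_pow]
  exact mul_le_one₀ (hp i) (by positivity) (pow_le_one₀ (norm_nonneg _) ht)

theorem coeff_int {F : Type} [NormedField F] (p : F[X])
    (hp : ∀ i, ‖p.coeff i‖ ≤ 1) (k : ℕ) : ∀ i, ‖(p * X ^ k).coeff i‖ ≤ 1 := by
  intro i
  rw [Polynomial.coeff_mul_X_pow']
  split_ifs
  · exact hp _
  · simp

theorem norm_sub_le_one {F : Type} [NormedField F] [IsUltrametricDist F] {a b : F}
    (ha : ‖a‖ ≤ 1) (hb : ‖b‖ ≤ 1) : ‖a - b‖ ≤ 1 := by
  rw [sub_eq_add_neg]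
  refine (IsUltrametricDist.norm_add_le_max a (-b)).trans (max_le ha ?_)
  rwa [norm_neg]

theorem ne_of_norm {F : Type} [NormedField F] {a : F} (ha : ‖a‖ = 1) : a ≠ 0 := by
  intro h
  rw [h, norm_zero] at ha
  exact zero_ne_one ha

section

variable {F : Type} [NontriviallyNormedField F] [IsUltrametricDist F] [ProperSpace F] [CharZero F]

theorem step (hBTD : T_BTD) (h2 : ‖(2 : F)‖ = 1) (a0 a1 a2 a3 a4 a5 a6 : F)
    (h0 : ‖a0‖ = 1) (h1 : ‖a1‖ = 1) (h2' : ‖a2‖ = 1) (h3 : ‖a3‖ = 1) (h4 : ‖a4‖ = 1)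
    (h5 : a5 ≠ 0) (h6 : a6 ≠ 0) :
    TI (Matrix.diagonal ![a0, a1, a2, a3, a4, a5, a6]) 3 ↔
      TI (Matrix.diagonal ![a0 * a1 * a2 * a3 * a4, a5, a6]) 1 := by
  have hn0 := ne_of_norm h0
  have hn1 := ne_of_norm h1
  have hn2 := ne_of_norm h2'
  have hn3 := ne_of_norm h3
  have hn4 := ne_of_norm h4
  have e1 := hBTD F h2 4 ![a0, a1, a2, a3, a4, a5, a6] (by
    intro i
    fin_cases i <;> simpa) h0 h1 h2' 2
  have e2 : (Fin.cons (-(a0 * a1 * a2))
      (fun i : Fin 4 => (![a0, a1, a2, a3, a4, a5, a6] : Fin 7 → F) i.succ.succ.succ) :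
        Fin 5 → F) = ![-(a0 * a1 * a2), a3, a4, a5, a6] := by
    funext i
    fin_cases i <;> rfl
  have e3 := hBTD F h2 2 ![-(a0 * a1 * a2), a3, a4, a5, a6] (by
    intro i
    fin_cases i <;> simp [hn0, hn1, hn2, hn3, hn4, h5, h6]) (by
      show ‖-(a0 * a1 * a2)‖ = 1
      rw [norm_neg, norm_mul, norm_mul, h0, h1, h2', one_mul, one_mul]) h3 h4 1
  have e4 : (Fin.cons (-(-(a0 * a1 * a2) * a3 * a4))
      (fun i : Fin 2 => (![-(a0 * a1 * a2), a3, a4, a5, a6] : Fin 5 → F) i.succ.succ.succ) :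
        Fin 3 → F) = ![a0 * a1 * a2 * a3 * a4, a5, a6] := by
    funext i
    fin_cases i
    · show -(-(a0 * a1 * a2) * a3 * a4) = a0 * a1 * a2 * a3 * a4
      ring
    · rfl
    · rfl
  refine e1.trans ?_
  refine Iff.trans ?_ (e3.trans ?_)
  · refine Eq.to_iff (congrArg (fun v : Fin 5 → F => TI (Matrix.diagonal v) 2) e2)
  · refine Eq.to_iff (congrArg (fun v : Fin 3 → F => TI (Matrix.diagonal v) 1) e4)

theorem pf_BG1 (hBDG : T_BDG) (hBTD : T_BTD) (hBDE : T_BDE) (hBUD : T_BUD) (hBIN : T_BIN)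
    (hBRO : T_BRO) (hBDC : T_BDC) (hTIC : Pool.Agent.H32.SAB.T_TIC) : T_GB1 := by
  intro F _ _ _ _ P D t h2 hP h7 hPi hDi hsep hcop hsq ht htP hroot
  have hud : ‖(gA P D 0).det‖ = 1 := hBUD F P D hP h7 hPi hDi hcop
  have hPt : ‖eval t P‖ ≤ 1 := norm_eval_le P hPi t ht
  rcases hPt.lt_or_eq with hlt | heq
  · obtain ⟨e, he0, het, he'⟩ := hBRO F P t h2 hP h7 hPi hsep ht hlt
    obtain ⟨-, P1, hP1, hM1, hd1, hi1, hn1, hn2, hs1⟩ := he' e he0 het
    have he1 : ‖e‖ ≤ 1 := by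
      have : e = (e - t) + t := by ring
      rw [this]
      exact (IsUltrametricDist.norm_add_le_max _ _).trans (max_le het.le ht)
    have hDe : IsSquare (eval e D) := hroot e he0 het
    have hDn : ‖eval e D‖ = 1 := by
      obtain ⟨a, b, ha, hb, hab⟩ := hcop
      have h := congrArg (eval e) hab
      rw [eval_add, eval_mul, eval_mul, he0, mul_zero, zero_add, eval_one] at h
      have h' := congrArg norm h
      rw [norm_mul, norm_one] at h'
      have hb1 := norm_eval_le b hb e he1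
      have hD1 := norm_eval_le D hDi e he1
      by_contra hne
      have hlt' : ‖eval e D‖ < 1 := lt_of_le_of_ne hD1 hne
      have : ‖eval e b‖ * ‖eval e D‖ < 1 := by
        have h0 := norm_nonneg (eval e D)
        nlinarith
      linarith
    obtain ⟨C0, u, w, hC0, hu, hw, -, hsqu, hdiag⟩ :=
      hBDC F P D P1 t e h2 hP h7 hPi hDi hud hsq ht he1 htP hP1 hM1 hd1 hi1 hn1 hn2 hs1 hDn
    have hsnoc : (Fin.snoc u w : Fin 7 → F) = ![u 0, u 1, u 2, u 3, u 4, u 5, w] := by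
      funext i
      fin_cases i <;> rfl
    have hT := (hTIC F 7 3 (ft P D t) C0 hC0).1
    refine hT ?_
    rw [hdiag, hsnoc]
    refine (step hBTD h2 _ _ _ _ _ _ _ (hu 0) (hu 1) (hu 2) (hu 3) (hu 4)
      (ne_of_norm (hu 5)) hw).2 ?_
    -- a square root of `-(p u5)`
    have hDe0 : eval e D ≠ 0 := ne_of_norm hDn
    have hp : IsSquare (-(∏ i, u i)) := by
      obtain ⟨x, hx⟩ := hsqu
      obtain ⟨y, hy⟩ := hDe
      have hy0 : y ≠ 0 := by
        rintro rfl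
        exact hDe0 (by rw [hy, mul_zero])
      refine ⟨x / y, ?_⟩
      rw [hy] at hx
      have : x / y * (x / y) = x * x / (y * y) := by
        field_simp
      rw [this, ← hx, mul_div_assoc, div_self (mul_ne_zero hy0 hy0), mul_one]
    obtain ⟨r, hr⟩ := hp
    have hprod : (∏ i, u i) = u 0 * u 1 * u 2 * u 3 * u 4 * u 5 := by
      rw [Fin.prod_univ_six]
    rw [hprod] at hr
    set p := u 0 * u 1 * u 2 * u 3 * u 4 with hpdef
    have hp0 : p ≠ 0 := by
      rw [hpdef]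
      simp [ne_of_norm (hu 0), ne_of_norm (hu 1), ne_of_norm (hu 2), ne_of_norm (hu 3),
        ne_of_norm (hu 4)]
    refine ⟨fun _ => ![r, p, 0], ?_, ?_⟩
    · refine LinearIndependent.of_subsingleton 0 ?_
      intro h
      exact hp0 (congrFun h 1)
    · intro i j
      have e : (Matrix.diagonal ![p, u 5, w]) *ᵥ ![r, p, 0] = ![p * r, u 5 * p, 0] := by
        funext k
        rw [Matrix.mulVec_diagonal]
        fin_cases k <;> simp
      show ![r, p, 0] ⬝ᵥ ((Matrix.diagonal ![p, u 5, w]) *ᵥ ![r, p, 0]) = 0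
      rw [e, dotProduct, Fin.sum_univ_three]
      show r * (p * r) + p * (u 5 * p) + 0 * 0 = 0
      linear_combination (-p) * hr
  · obtain ⟨C0, u, hC0, hu, hdiag⟩ := hBDG F h2 7 (ft P D t) (ft_symm P D t) (by
      intro i j
      have hg : ∀ s, ‖gA P D s i j‖ ≤ 1 := fun s =>
        hBIN F P (D * X ^ ((i : ℕ) + (j : ℕ) + s)) hP hPi (coeff_int D hDi _)
      show ‖gA P D 1 i j - (t • gA P D 0) i j‖ ≤ 1
      refine norm_sub_le_one (hg 1) ?_
      show ‖t * gA P D 0 i j‖ ≤ 1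
      rw [norm_mul]
      exact mul_le_one₀ ht (norm_nonneg _) (hg 0)) (by
      rw [hBDE F P D t hP h7, norm_mul, norm_neg, heq, hud, one_mul])
    have hvec : u = ![u 0, u 1, u 2, u 3, u 4, u 5, u 6] := by
      funext i
      fin_cases i <;> rfl
    refine (hTIC F 7 3 (ft P D t) C0 hC0).1 ?_
    rw [hdiag, hvec]
    refine (step hBTD h2 _ _ _ _ _ _ _ (hu 0) (hu 1) (hu 2) (hu 3) (hu 4)
      (ne_of_norm (hu 5)) (ne_of_norm (hu 6))).2 ?_
    have hp1 : ‖u 0 * u 1 * u 2 * u 3 * u 4‖ = 1 := by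
      simp only [norm_mul, hu, mul_one]
    have h := hBTD F h2 0 ![u 0 * u 1 * u 2 * u 3 * u 4, u 5, u 6] (by
      intro i
      fin_cases i
      · exact ne_of_norm hp1
      · exact ne_of_norm (hu 5)
      · exact ne_of_norm (hu 6)) hp1 (hu 5) (hu 6) 0
    refine h.2 ⟨fun i => i.elim0, linearIndependent_empty_type, fun i => i.elim0⟩

end

end Pool.Agent.H69.N6B
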